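import Pool.Agent.Helper21.CU.St
import Pool.Agent.Helper15.AB.StMid

/-!
# Project CU (MP_ad0dc2), module BRN: rough numbers in a progression
-/

set_option autoImplicit false

open Finset Filter

namespace Pool.Agent.Helper76.CU

open Pool.Agent.Helper21.CU Pool.Agent.Helper15.AB

/-- The primes in `(3, w]` that do not divide `a`. -/
def PS (a w : ℕ) : Finset ℕ := (Ioc 3 w).filter (fun l => l.Prime ∧ ¬ l ∣ a)

open scoped Classical in
/-- Transfer to an interval. -/
lemma count (a β y w : ℕ) (ha : 1 ≤ a) : ∃ E : ℕ,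
    (((Icc 1 y).filter (fun b : ℕ => b % a = β % a ∧ ∀ p : ℕ, p.Prime → p ∣ b → w < p)).card : ℝ) ≤
      ∑ e ∈ Ioc E (E + (y / a + 1)), (0 : ℝ) ^ om (PS a w) e := by
  set M : ℕ := ∏ l ∈ PS a w, l with hM
  have hcop : Nat.Coprime a M := by
    rw [hM]
    refine Nat.Coprime.prod_right fun l hl => ?_
    obtain ⟨_, hlp, hla⟩ := mem_filter.1 hl
    exact ((Nat.Prime.coprime_iff_not_dvd hlp).2 hla).symm
  have hM1 : 1 ≤ M := by
    rw [hM]
    refine Nat.one_le_iff_ne_zero.2 (prod_ne_zero_iff.2 fun l hl => ?_)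
    exact (mem_filter.1 hl).2.1.ne_zero
  obtain ⟨k, hk1, hk2⟩ := Nat.chineseRemainder hcop 0 (β % a)
  obtain ⟨E₀, hE₀⟩ := (Nat.modEq_zero_iff_dvd).1 hk1
  rw [hE₀] at hk2
  refine ⟨E₀ + M - 1, ?_⟩
  set S := (Icc 1 y).filter (fun b : ℕ => b % a = β % a ∧ ∀ p : ℕ, p.Prime → p ∣ b → w < p) with hS
  set f : ℕ → ℕ := fun b => E₀ + M + b / a with hf
  have hzero : ∀ b ∈ S, om (PS a w) (f b) = 0 := by
    intro b hb
    obtain ⟨_, hb1, hb2⟩ := mem_filter.1 hb
    unfold om
    rw [card_eq_zero, filter_eq_empty_iff]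
    intro l hl hdvd
    obtain ⟨hl1, hlp, hla⟩ := mem_filter.1 hl
    have hlM : l ∣ M := dvd_prod_of_mem _ hl
    have h1 : l ∣ a * f b := Dvd.dvd.mul_left hdvd a
    have h2 : a * f b = a * M + (a * E₀ + a * (b / a)) := by
      simp only [hf]
      ring
    rw [h2] at h1
    have h3 : l ∣ a * E₀ + a * (b / a) := (Nat.dvd_add_right (Dvd.dvd.mul_left hlM a)).1 h1
    have h4 : a * E₀ ≡ β % a [MOD l] := hk2.of_dvd hlM
    have h5 : a * E₀ + a * (b / a) ≡ β % a + a * (b / a) [MOD l] := h4.add_right _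
    have h6 : β % a + a * (b / a) = b := by
      rw [← hb1]
      exact Nat.mod_add_div b a
    rw [h6] at h5
    have h7 : l ∣ b := (Nat.modEq_zero_iff_dvd).1 (h5.symm.trans ((Nat.modEq_zero_iff_dvd).2 h3))
    have h8 := hb2 l hlp h7
    have h9 := (mem_Ioc.1 hl1).2
    omega
  have hinj : Set.InjOn f (S : Set ℕ) := by
    intro b hb c hc hbc
    obtain ⟨_, hb1, _⟩ := mem_filter.1 (mem_coe.1 hb)
    obtain ⟨_, hc1, _⟩ := mem_filter.1 (mem_coe.1 hc)
    have h1 : b / a = c / a := by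
      simp only [hf] at hbc
      omega
    rw [← Nat.mod_add_div b a, ← Nat.mod_add_div c a, hb1, hc1, h1]
  have hmem : S.image f ⊆ Ioc (E₀ + M - 1) (E₀ + M - 1 + (y / a + 1)) := by
    intro e he
    obtain ⟨b, hb, rfl⟩ := mem_image.1 he
    have h1 := (mem_Icc.1 (mem_filter.1 hb).1).2
    have h2 : b / a ≤ y / a := Nat.div_le_div_right h1
    rw [mem_Ioc]
    simp only [hf]
    generalize b / a = t1 at h2
    generalize y / a = t2 at h2
    omega
  calc (S.card : ℝ) = ∑ b ∈ S, (0 : ℝ) ^ om (PS a w) (f b) := by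
        rw [sum_congr rfl (fun b hb => by rw [hzero b hb, pow_zero] : ∀ b ∈ S,
          (0 : ℝ) ^ om (PS a w) (f b) = 1)]
        simp
    _ = ∑ e ∈ S.image f, (0 : ℝ) ^ om (PS a w) e := by rw [sum_image hinj]
    _ ≤ _ := sum_le_sum_of_subset_of_nonneg hmem (fun _ _ _ => pow_nonneg le_rfl _)

open scoped Classical in
theorem hBRN (hSD : Pool.Agent.Helper15.AB.StSD) (hMV : Pool.Agent.Helper15.AB.StMV) : StBRN := by
  intro κ hκ
  obtain ⟨C1, c₀, hC1, hc₀, hc1, hSD⟩ := hSD
  obtain ⟨C2, hC2, hMV⟩ := hMV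
  have hlog : Tendsto (fun x : ℕ => Real.log x) atTop atTop :=
    Real.tendsto_log_atTop.comp tendsto_natCast_atTop_atTop
  have hll : Tendsto (fun x : ℕ => Real.log (Real.log x)) atTop atTop :=
    Real.tendsto_log_atTop.comp hlog
  have e1 := hll.eventually_ge_atTop (max 1 (4 / (κ * c₀)))
  have e2 : ∀ᶠ x : ℕ in atTop, Real.log (Real.log x) ≤ (1 / (2 * κ)) * Real.log x := by
    have h1 := (Real.isLittleO_log_id_atTop.bound (c := 1 / (2 * κ)) (by positivity))
    filter_upwards [hlog.eventually h1, hlog.eventually_ge_atTop 0] with x hx hx0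
    have h2 : ‖Real.log (Real.log x)‖ ≤ 1 / (2 * κ) * ‖id (Real.log x)‖ := hx
    rw [id, Real.norm_of_nonneg hx0] at h2
    exact le_trans (Real.le_norm_self _) h2
  have e3 : ∀ᶠ x : ℕ in atTop, Real.log x ≤ (x : ℝ) ^ (1 / 8 : ℝ) := by
    have h1 := ((isLittleO_log_rpow_atTop (r := 1 / 8) (by norm_num)).bound (c := 1) one_pos)
    filter_upwards [tendsto_natCast_atTop_atTop.eventually h1] with x hx
    have h2 : ‖Real.log (x : ℝ)‖ ≤ 1 * ‖(x : ℝ) ^ (1 / 8 : ℝ)‖ := hx
    rw [one_mul, Real.norm_of_nonneg (Real.rpow_nonneg (Nat.cast_nonneg _) _)] at h2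
    exact le_trans (Real.le_norm_self _) h2
  have e4 := hlog.eventually_ge_atTop 2
  obtain ⟨x₀, hx₀⟩ := eventually_atTop.1 ((e1.and e2).and (e3.and (e4.and (eventually_ge_atTop 16))))
  refine ⟨4 * C1 * C2 * κ + 2 * C1, by positivity, x₀, ?_⟩
  intro x hx a β y ha hax hβ hy hyx
  obtain ⟨⟨h1, h2⟩, h3, h4, h16⟩ := hx₀ x hx
  have hL1 : 1 ≤ Real.log (Real.log x) := le_trans (le_max_left _ _) h1
  have hL2 : 4 / (κ * c₀) ≤ Real.log (Real.log x) := le_trans (le_max_right _ _) h1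
  set L := Real.log (Real.log x) with hL
  have hx0 : (0 : ℝ) < x := by
    have : (16 : ℝ) ≤ x := by exact_mod_cast h16
    linarith
  have hlogpos : 0 < Real.log x := by linarith
  -- the size of z
  have hz : Real.log (zz κ x) = Real.log x / (κ * L) := by
    unfold zz
    rw [Real.log_exp]
  have hzpos : 0 < zz κ x := Real.exp_pos _
  have hlogz2 : 2 ≤ Real.log (zz κ x) := by
    rw [hz, le_div_iff₀ (by positivity)]
    have := mul_le_mul_of_nonneg_left h2 (by positivity : (0 : ℝ) ≤ 2 * κ)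
    have h5 : 2 * κ * (1 / (2 * κ) * Real.log x) = Real.log x := by
      field_simp
    nlinarith
  have hz4 : 4 ≤ zz κ x := by
    have h5 : Real.exp 2 ≤ zz κ x := by
      rw [← Real.exp_log hzpos]
      exact Real.exp_le_exp.2 hlogz2
    have h6 : (4 : ℝ) ≤ Real.exp 2 := by
      have h7 : (2 : ℝ) ≤ Real.exp 1 := by
        have := Real.add_one_le_exp (1 : ℝ)
        linarith
      have h8 : Real.exp 2 = Real.exp 1 * Real.exp 1 := by
        rw [← Real.exp_add]
        norm_num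
      rw [h8]
      nlinarith
    linarith
  set w : ℕ := ⌊zz κ x⌋₊ with hw
  have hw_le : (w : ℝ) ≤ zz κ x := Nat.floor_le hzpos.le
  have hw_gt : zz κ x < w + 1 := Nat.lt_floor_add_one _
  have hw2 : 2 ≤ w := by
    have : (2 : ℕ) ≤ ⌊zz κ x⌋₊ := Nat.le_floor (by push_cast; linarith)
    exact this
  have hlogw : Real.log (zz κ x) / 2 ≤ Real.log w := by
    have h5 : Real.sqrt (zz κ x) ≤ w := by
      rw [Real.sqrt_le_left (by positivity)]
      have h6 : (3 : ℝ) ≤ w := by
        have : (3 : ℕ) ≤ ⌊zz κ x⌋₊ := Nat.le_floor (by push_cast; linarith)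
        exact_mod_cast this
      nlinarith
    rw [← Real.log_sqrt hzpos.le]
    exact Real.log_le_log (Real.sqrt_pos.2 hzpos) h5
  -- H
  have haR : (1 : ℝ) ≤ a := by exact_mod_cast ha
  have haR0 : (0 : ℝ) < a := by linarith
  have hyR0 : (0 : ℝ) ≤ y := Nat.cast_nonneg _
  have hH1 : (y : ℝ) / a ≤ ((y / a + 1 : ℕ) : ℝ) := by
    have h5 : y < a * (y / a + 1) := by
      have := Nat.lt_mul_div_succ y (by omega : 0 < a)
      simpa using this
    have h6 : (y : ℝ) < a * ((y / a + 1 : ℕ) : ℝ) := by exact_mod_cast h5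
    rw [div_le_iff₀ haR0]
    linarith
  have hxq : (x : ℝ) ^ (1 / 4 : ℝ) ≤ (y : ℝ) / a := by
    rw [le_div_iff₀ haR0]
    calc (x : ℝ) ^ (1 / 4 : ℝ) * a ≤ (x : ℝ) ^ (1 / 4 : ℝ) * (x : ℝ) ^ (1 / 4 : ℝ) :=
          mul_le_mul_of_nonneg_left hax (by positivity)
      _ = √(x : ℝ) := by
          rw [← Real.rpow_add hx0, Real.sqrt_eq_rpow]
          norm_num
      _ ≤ y := hy
  have hxq2 : (2 : ℝ) ≤ (x : ℝ) ^ (1 / 4 : ℝ) := by
    have h5 : (16 : ℝ) ≤ x := by exact_mod_cast h16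
    calc (2 : ℝ) = (16 : ℝ) ^ (1 / 4 : ℝ) := by
          rw [show (16 : ℝ) = 2 ^ (4 : ℝ) by norm_num, ← Real.rpow_mul (by norm_num)]
          norm_num
      _ ≤ _ := Real.rpow_le_rpow (by norm_num) h5 (by norm_num)
  set H : ℕ := y / a + 1 with hH
  have hHx : (x : ℝ) ^ (1 / 4 : ℝ) ≤ H := le_trans hxq hH1
  have hH2 : 2 ≤ H := by
    have : (2 : ℝ) ≤ H := le_trans hxq2 hHx
    exact_mod_cast this
  have hHle : (H : ℝ) ≤ 2 * (y / a) := by
    have h5 : ((y / a : ℕ) : ℝ) ≤ (y : ℝ) / a := Nat.cast_div_le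
    have h6 : (H : ℝ) = ((y / a : ℕ) : ℝ) + 1 := by
      rw [hH]
      push_cast
      rfl
    rw [h6]
    have h7 : (1 : ℝ) ≤ (y : ℝ) / a := by linarith
    linarith
  have hHpos : (0 : ℝ) < H := by
    have : (2 : ℝ) ≤ H := by exact_mod_cast hH2
    linarith
  -- z ≤ H ^ c₀
  have hzH : zz κ x ≤ (H : ℝ) ^ c₀ := by
    have h5 : Real.log (zz κ x) ≤ c₀ * Real.log H := by
      have h6 : (1 / 4) * Real.log x ≤ Real.log H := by
        rw [← Real.log_rpow hx0]
        exact Real.log_le_log (by positivity) hHx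
      have h7 : Real.log (zz κ x) ≤ c₀ * ((1 / 4) * Real.log x) := by
        rw [hz, div_le_iff₀ (by positivity)]
        have h8 : 4 ≤ L * (κ * c₀) := by
          rw [div_le_iff₀ (by positivity)] at hL2
          exact hL2
        nlinarith [mul_le_mul_of_nonneg_right h8 hlogpos.le]
      nlinarith [mul_le_mul_of_nonneg_left h6 hc₀.le]
    rw [← Real.exp_log hzpos, Real.rpow_def_of_pos hHpos]
    refine Real.exp_le_exp.2 ?_
    linarith
  obtain ⟨E, hE⟩ := count a β y w ha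
  have hsieve := hSD 0 E H (PS a w) le_rfl zero_le_one hH2 (by
    intro l hl
    obtain ⟨hl1, hlp, _⟩ := mem_filter.1 hl
    obtain ⟨hl2, hl3⟩ := mem_Ioc.1 hl1
    refine ⟨hlp, hl2, ?_⟩
    have : (l : ℝ) ≤ w := by exact_mod_cast hl3
    linarith)
  have hmv := hMV w a hw2 ha
  have hprod : ∏ l ∈ PS a w, (1 - (1 - 0) / (l : ℝ)) ≤ C2 / Real.log w * ((a : ℝ) / Nat.totient a) := by
    refine le_trans (le_of_eq ?_) hmv
    unfold PS
    refine prod_congr ?_ (fun l _ => by rw [sub_zero])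
    ext l
    simp
  -- totient
  have hphi : 0 < Nat.totient a := Nat.totient_pos.2 (by omega)
  have hphiR : (0 : ℝ) < Nat.totient a := by exact_mod_cast hphi
  have hphia : (Nat.totient a : ℝ) ≤ a := by exact_mod_cast Nat.totient_le a
  -- first term
  have hlogwpos : 0 < Real.log w := by linarith
  have hinvw : 1 / Real.log w ≤ 2 * κ * L / Real.log x := by
    rw [div_le_div_iff₀ hlogwpos hlogpos]
    have h5 : Real.log x = κ * L * Real.log (zz κ x) := by
      rw [hz]
      field_simp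
    rw [one_mul]
    calc Real.log x = κ * L * Real.log (zz κ x) := h5
      _ ≤ κ * L * (2 * Real.log w) := mul_le_mul_of_nonneg_left (by linarith) (by positivity)
      _ = 2 * κ * L * Real.log w := by ring
  have hT1 : C1 * H * ∏ l ∈ PS a w, (1 - (1 - 0) / (l : ℝ)) ≤
      4 * C1 * C2 * κ * (y * L / (Nat.totient a * Real.log x)) := by
    calc C1 * H * ∏ l ∈ PS a w, (1 - (1 - 0) / (l : ℝ))
        ≤ C1 * H * (C2 / Real.log w * ((a : ℝ) / Nat.totient a)) :=
          mul_le_mul_of_nonneg_left hprod (by positivity)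
      _ = C1 * H * C2 * ((a : ℝ) / Nat.totient a) * (1 / Real.log w) := by ring
      _ ≤ C1 * (2 * (y / a)) * C2 * ((a : ℝ) / Nat.totient a) * (2 * κ * L / Real.log x) := by
          refine mul_le_mul ?_ hinvw (by positivity) (by positivity)
          refine mul_le_mul_of_nonneg_right ?_ (by positivity)
          refine mul_le_mul_of_nonneg_right ?_ hC2.le
          exact mul_le_mul_of_nonneg_left hHle hC1.le
      _ = 4 * C1 * C2 * κ * (y * L / (Nat.totient a * Real.log x)) := by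
          field_simp
          ring
  -- second term
  have hT2 : C1 * √(H : ℝ) ≤ 2 * C1 * (y * L / (Nat.totient a * Real.log x)) := by
    have h5 : Real.log x ≤ √(H : ℝ) := by
      refine le_trans h3 ?_
      refine Real.le_sqrt_of_sq_le ?_
      refine le_trans (le_of_eq ?_) hHx
      rw [← Real.rpow_natCast, ← Real.rpow_mul hx0.le]
      norm_num
    have h6 : √(H : ℝ) * Real.log x ≤ H := by
      calc √(H : ℝ) * Real.log x ≤ √(H : ℝ) * √(H : ℝ) :=
            mul_le_mul_of_nonneg_left h5 (Real.sqrt_nonneg _)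
        _ = H := Real.mul_self_sqrt hHpos.le
    have h7 : √(H : ℝ) ≤ 2 * (y / a) / Real.log x := by
      rw [le_div_iff₀ hlogpos]
      linarith
    have h8 : 2 * ((y : ℝ) / a) / Real.log x ≤ 2 * (y * L / (Nat.totient a * Real.log x)) := by
      have h9 : (y : ℝ) / a ≤ y * L / Nat.totient a := by
        rw [div_le_div_iff₀ haR0 hphiR]
        have h10 : (Nat.totient a : ℝ) ≤ L * a := by nlinarith
        nlinarith [mul_le_mul_of_nonneg_left h10 hyR0]
      have h11 : y * L / (Nat.totient a * Real.log x) = (y * L / Nat.totient a) / Real.log x := by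
        rw [div_div]
      rw [h11, mul_div_assoc]
      refine mul_le_mul_of_nonneg_left ?_ (by norm_num)
      exact div_le_div_of_nonneg_right h9 hlogpos.le
    calc C1 * √(H : ℝ) ≤ C1 * (2 * (y * L / (Nat.totient a * Real.log x))) :=
          mul_le_mul_of_nonneg_left (le_trans h7 h8) hC1.le
      _ = _ := by ring
  have hcard : (((Icc 1 y).filter (fun b : ℕ => b % a = β % a ∧
      ∀ p : ℕ, p.Prime → p ∣ b → zz κ x < p)).card : ℝ) ≤
      (((Icc 1 y).filter (fun b : ℕ => b % a = β % a ∧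
        ∀ p : ℕ, p.Prime → p ∣ b → w < p)).card : ℝ) := by
    refine Nat.cast_le.2 (card_le_card ?_)
    intro b hb
    rw [mem_filter] at hb ⊢
    refine ⟨hb.1, hb.2.1, fun p hp hpb => ?_⟩
    have h5 := hb.2.2 p hp hpb
    have h6 : (w : ℝ) < p := lt_of_le_of_lt hw_le h5
    exact_mod_cast h6
  have hfin := le_trans (le_trans hcard hE) (le_trans hsieve (add_le_add hT1 hT2))
  refine le_trans hfin (le_of_eq ?_)
  ring

end Pool.Agent.Helper76.CU
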